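import Mathlib.Topology.TietzeExtension
import Mathlib.Topology.Separation.CompletelyRegular
import Mathlib.Topology.Baire.CompleteMetrizable
import Mathlib.Topology.Baire.Lemmas
import Mathlib.Topology.Compactness.Lindelof
import Mathlib.Topology.MetricSpace.Polish
import Mathlib.Topology.Algebra.Monoid
import Mathlib.Data.Finset.Lattice.Fold
import Mathlib.Tactic.Linarith
import Mathlib.Tactic.FieldSimp

/-! Uniformly continuous images of function spaces: supports, networks, discrete sets. -/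

namespace Pool.Agent.MP_866953_gt.Pyt

open Set Filter Topology

universe u v

/-- Continuous real functions with the pointwise topology and uniformity. -/
abbrev Cp (X : Type u) [TopologicalSpace X] : Type u := {f : X → ℝ // Continuous f}

/-- An indexed network. -/
def Net {Z : Type u} [TopologicalSpace Z] {ι : Type v} (e : ι → Set Z) : Prop :=
  ∀ z, ∀ U ∈ 𝓝 z, ∃ i, z ∈ e i ∧ e i ⊆ U

section
variable {X : Type u} [TopologicalSpace X]

theorem small_support {ψ : Cp X → ℝ} (h : UniformContinuous ψ) :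
    ∃ (S : Finset X) (δ : ℝ), 0 < δ ∧
      ∀ f g : Cp X, (∀ x ∈ S, |f.1 x - g.1 x| < δ) → |ψ f - ψ g| < 1 := by
  have h1 : {p : Cp X × Cp X | dist (ψ p.1) (ψ p.2) < 1} ∈ uniformity (Cp X) :=
    h (Metric.dist_mem_uniformity one_pos)
  rw [uniformity_subtype, mem_comap] at h1
  obtain ⟨W, hW, hsub⟩ := h1
  rw [Pi.uniformity, mem_iInf'] at hW
  obtain ⟨I, hI, V, hV, -, hWV, -⟩ := hW
  have h2 : ∀ x : X, ∃ δ : ℝ, 0 < δ ∧ ∀ p : (X → ℝ) × (X → ℝ), |p.1 x - p.2 x| < δ → p ∈ V x := by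
    intro x
    obtain ⟨t, ht, hs⟩ := mem_comap.1 (hV x)
    obtain ⟨δ, hδ, hd⟩ := Metric.mem_uniformity_dist.1 ht
    exact ⟨δ, hδ, fun p hp => hs (hd (by rwa [Real.dist_eq]))⟩
  choose δ hδ hd using h2
  obtain ⟨ε, hε, hle⟩ : ∃ ε : ℝ, 0 < ε ∧ ∀ x ∈ I, ε ≤ δ x := by
    refine hI.induction_on _ ⟨1, one_pos, fun _ h => h.elim⟩ ?_
    rintro a s - - ⟨ε, hε, hle⟩
    refine ⟨min ε (δ a), lt_min hε (hδ a), ?_⟩
    rintro x (rfl | hx)
    · exact min_le_right _ _
    · exact (min_le_left _ _).trans (hle x hx)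
  refine ⟨hI.toFinset, ε, hε, fun f g hfg => ?_⟩
  have : (f, g) ∈ {p : Cp X × Cp X | dist (ψ p.1) (ψ p.2) < 1} := by
    apply hsub
    rw [mem_preimage, hWV]
    exact mem_iInter₂.2 fun x hx =>
      hd x _ ((hfg x (hI.mem_toFinset.2 hx)).trans_le (hle x hx))
  rwa [mem_ofPred_eq, Real.dist_eq] at this

/-- A uniformly continuous function is bounded on large boxes over a finite set. -/
theorem large_support {ψ : Cp X → ℝ} (h : UniformContinuous ψ) :
    ∃ S : Finset X, ∀ r : ℝ, ∃ M : ℝ,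
      ∀ f g : Cp X, (∀ x ∈ S, |f.1 x - g.1 x| ≤ r) → |ψ f - ψ g| ≤ M := by
  obtain ⟨S, δ, hδ, hS⟩ := small_support h
  refine ⟨S, fun r => ?_⟩
  have key : ∀ n : ℕ, ∀ f g : Cp X, (∀ x ∈ S, |f.1 x - g.1 x| ≤ n * (δ / 2)) →
      |ψ f - ψ g| ≤ n + 1 := by
    intro n
    induction n with
    | zero =>
      intro f g hfg
      have := hS f g fun x hx => (hfg x hx).trans_lt (by simpa using hδ)
      push_cast
      linarith
    | succ n ih =>
      intro f g hfg
      have hn : (0 : ℝ) < n + 1 := by positivity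
      let k : Cp X := ⟨fun x => f.1 x + (g.1 x - f.1 x) / (n + 1),
        f.2.add ((g.2.sub f.2).div_const _)⟩
      have a1 : |ψ f - ψ k| < 1 := by
        refine hS f k fun x hx => ?_
        have e : f.1 x - k.1 x = (f.1 x - g.1 x) / (n + 1) := by
          simp only [k]; ring
        have := hfg x hx
        push_cast at this
        rw [e, abs_div, abs_of_pos hn, div_lt_iff₀ hn]
        nlinarith
      have a2 : |ψ k - ψ g| ≤ n + 1 := by
        refine ih k g fun x hx => ?_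
        have e : k.1 x - g.1 x = (f.1 x - g.1 x) * n / (n + 1) := by
          simp only [k]; field_simp; ring
        have := hfg x hx
        push_cast at this
        have h0 : (0 : ℝ) ≤ n := Nat.cast_nonneg n
        rw [e, abs_div, abs_of_pos hn, div_le_iff₀ hn, abs_mul, abs_of_nonneg h0]
        nlinarith [mul_le_mul_of_nonneg_right this h0]
      have := abs_sub_le (ψ f) (ψ k) (ψ g)
      push_cast
      linarith
  obtain ⟨n, hn⟩ := exists_nat_ge (r / (δ / 2))
  refine ⟨n + 1, fun f g hfg => key n f g fun x hx => (hfg x hx).trans ?_⟩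
  rwa [div_le_iff₀ (by positivity)] at hn

theorem Net.lindelof {ι : Type v} [Countable ι] {e : ι → Set X} (h : Net e) : LindelofSpace X := by
  refine ⟨isLindelof_of_countable_subcover fun {κ} U hU hc => ?_⟩
  classical
  have h1 : ∀ i : {i // ∃ k, e i ⊆ U k}, ∃ k, e i ⊆ U k := fun i => i.2
  choose c hc' using h1
  refine ⟨range c, countable_range c, fun z _ => ?_⟩
  obtain ⟨k, hk⟩ := mem_iUnion.1 (hc (mem_univ z))
  obtain ⟨i, hi, hs⟩ := h z _ ((hU k).mem_nhds hk)
  exact mem_iUnion₂.2 ⟨c ⟨i, k, hs⟩, mem_range_self _, hc' ⟨i, k, hs⟩ hi⟩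

/-- The standard network of the function space. -/
def box {ι : Type v} (e : ι → Set X) (s : Finset (ι × ℚ × ℚ)) : Set (Cp X) :=
  {f | ∀ t ∈ s, ∀ x ∈ e t.1, f.1 x ∈ Ioo (t.2.1 : ℝ) t.2.2}

theorem Net.box {ι : Type v} {e : ι → Set X} (h : Net e) : Net (box e) := by
  classical
  intro f O hO
  rw [nhds_induced, mem_comap] at hO
  obtain ⟨W, hW, hsub⟩ := hO
  rw [nhds_pi, Filter.mem_pi] at hW
  obtain ⟨I, hI, t, ht, hIt⟩ := hW
  have h1 : ∀ x : X, ∃ p : ι × ℚ × ℚ, x ∈ e p.1 ∧ Ioo (p.2.1 : ℝ) p.2.2 ⊆ t x ∧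
      ∀ y ∈ e p.1, f.1 y ∈ Ioo (p.2.1 : ℝ) p.2.2 := by
    intro x
    obtain ⟨a, b, hab, hs⟩ := mem_nhds_iff_exists_Ioo_subset.1 (ht x)
    obtain ⟨a', ha1, ha2⟩ := exists_rat_btwn hab.1
    obtain ⟨b', hb1, hb2⟩ := exists_rat_btwn hab.2
    obtain ⟨i, hi, hi'⟩ := h x (f.1 ⁻¹' Ioo (a' : ℝ) b')
      (f.2.continuousAt.preimage_mem_nhds (Ioo_mem_nhds ha2 hb1))
    exact ⟨(i, a', b'), hi, (Ioo_subset_Ioo ha1.le hb2.le).trans hs, fun y hy => hi' hy⟩
  choose p hp1 hp2 hp3 using h1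
  refine ⟨hI.toFinset.image p, fun q hq => ?_, fun g hg => hsub (hIt fun x hx => ?_)⟩
  · obtain ⟨x, -, rfl⟩ := Finset.mem_image.1 hq
    exact hp3 x
  · exact hp2 x (hg (p x) (Finset.mem_image_of_mem p (hI.mem_toFinset.2 hx)) x (hp1 x))

/-- Any function on a set without accumulation points extends continuously. -/
theorem extend_discrete [NormalSpace X] [T1Space X] {D : Set X}
    (hD : ∀ x, ∃ V ∈ 𝓝 x, (V ∩ D).Finite) (c : X → ℝ) :
    ∃ g : X → ℝ, Continuous g ∧ ∀ d ∈ D, g d = c d := by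
  have h1 : ∀ A ⊆ D, IsClosed A := by
    intro A hA
    refine ⟨isOpen_iff_mem_nhds.2 fun x hx => ?_⟩
    obtain ⟨V, hV, hf⟩ := hD x
    have h2 : (V ∩ A).Finite := hf.subset (inter_subset_inter_right _ hA)
    filter_upwards [hV, h2.isClosed.isOpen_compl.mem_nhds fun k => hx k.2] with y hy hy' k
    exact hy' ⟨hy, k⟩
  have h2 : DiscreteTopology D := by
    refine discreteTopology_iff_forall_isClosed.2 fun s => ?_
    have := (h1 (Subtype.val '' s) (Subtype.coe_image_subset _ _)).preimage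
      (continuous_subtype_val (p := fun x => x ∈ D))
    rwa [preimage_image_eq _ Subtype.val_injective] at this
  obtain ⟨g, hg⟩ := ContinuousMap.exists_restrict_eq (Y := ℝ) (h1 D subset_rfl)
    ⟨fun d => c d, continuous_of_discreteTopology⟩
  exact ⟨g, g.continuous, fun d hd => congrArg (fun k : C(D, ℝ) => k ⟨d, hd⟩) hg⟩

/-- A locally finite family of bumps at the points of a countable set without accumulation
points, each vanishing on a prescribed finite set. -/
theorem bumps [NormalSpace X] [T1Space X] {D : Set X} (hc : D.Countable)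
    (hD : ∀ x, ∃ V ∈ 𝓝 x, (V ∩ D).Finite) (T : X → Set X) (hT : ∀ d, (T d).Finite) :
    ∃ u : D → X → ℝ, (∀ d, Continuous (u d)) ∧ LocallyFinite (fun d => Function.support (u d)) ∧
      (∀ d : D, u d d = 1) ∧ (∀ d d' : D, d ≠ d' → u d d' = 0) ∧
      ∀ d : D, ∀ x ∈ T d, x ≠ d → u d x = 0 := by
  obtain ⟨e, he⟩ := countable_iff_exists_injOn.1 hc
  obtain ⟨θ, hθ, hθe⟩ := extend_discrete hD fun x => e x
  have h1 : ∀ d : X, ∃ γ : X → ℝ, Continuous γ ∧ γ d = 1 ∧ ∀ x ∈ T d, x ≠ d → γ x = 0 := by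
    intro d
    obtain ⟨γ, h0, h1, -⟩ := exists_continuous_zero_one_of_isClosed
      ((hT d).subset sdiff_subset).isClosed (isClosed_singleton (x := d))
      (disjoint_sdiff_left (s := {d}) (t := T d))
    exact ⟨γ, γ.continuous, h1 rfl, fun x hx hx' => h0 ⟨hx, hx'⟩⟩
  choose γ hγ hγ1 hγ0 using h1
  have hs : ∀ (d : D) (x : X), max 0 (1 - |θ x - e d|) * γ d x ≠ 0 → |θ x - e d| < 1 := by
    intro d x hx
    by_contra k
    exact hx (by rw [max_eq_left (by linarith [not_lt.1 k]), zero_mul])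
  refine ⟨fun d x => max 0 (1 - |θ x - e d|) * γ d x, fun d => ?_, fun x => ?_, fun d => ?_,
    fun d d' hd => ?_, fun d x hx hx' => ?_⟩
  · exact (continuous_const.max (continuous_const.sub (hθ.sub continuous_const).abs)).mul (hγ d)
  · obtain ⟨n, hn⟩ := exists_nat_ge (θ x + 2)
    refine ⟨θ ⁻¹' Iio (θ x + 1), hθ.continuousAt.preimage_mem_nhds (Iio_mem_nhds (by linarith)),
      ?_⟩
    refine Finite.of_finite_image (f := fun d : D => e d) ((finite_le_nat n).subset ?_)
      fun a _ b _ k => Subtype.ext (he a.2 b.2 k)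
    rintro _ ⟨d, ⟨y, hy, hy'⟩, rfl⟩
    have h2 := (abs_lt.1 (hs d y hy)).1
    have h3 : θ y < θ x + 1 := hy'
    have h4 : (e d : ℝ) ≤ n := by linarith
    exact_mod_cast h4
  · simp only
    rw [hθe d d.2, hγ1]
    simp
  · by_contra k
    have h2 := hs d d' k
    rw [hθe d' d'.2, abs_lt] at h2
    have h3 : (e d' : ℤ) - e d < 1 := by exact_mod_cast h2.2
    have h4 : -1 < (e d' : ℤ) - e d := by exact_mod_cast h2.1
    exact hd (Subtype.ext (he d.2 d'.2 (by omega)))
  · simp only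
    rw [hγ0 d x hx hx', mul_zero]

end

end Pool.Agent.MP_866953_gt.Pyt
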