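import Pool.Agent.MP_866953_gt.Pyt.A

/-! A uniform boundedness principle for uniformly continuous maps of function spaces, and the
countable k-network of the target. -/

namespace Pool.Agent.MP_866953_gt.Pyt

open Set Filter Topology

universe u v w

variable {X : Type u} [TopologicalSpace X] {Y : Type v} [TopologicalSpace Y]

/-- The points at which the images of functions bounded on `V` are bounded. -/
def tame (φ : Cp X → Cp Y) (V : Set X) : Set Y :=
  {y | ∀ r : ℝ, ∃ M : ℝ, ∀ h : Cp X, (∀ x ∈ V, |h.1 x| ≤ r) → |(φ h).1 y| ≤ M}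

theorem uc_eval {φ : Cp X → Cp Y} (hφ : UniformContinuous φ) (y : Y) :
    UniformContinuous fun f => (φ f).1 y :=
  (Pi.uniformContinuous_proj (fun _ : Y => ℝ) y).comp (uniformContinuous_subtype_val.comp hφ)

theorem exists_tame [NormalSpace X] [T1Space X] {φ : Cp X → Cp Y} (hφ : UniformContinuous φ)
    {V : ℕ → Set X} (hm : Monotone V) (hc : ∀ x, ∃ j, x ∈ V j)
    (hV : ∀ D : Set X, (∀ j, (V j ∩ D).Finite) → ∀ x, ∃ W ∈ 𝓝 x, (W ∩ D).Finite)
    {K : Set Y} (hK : IsCompact K) : ∃ j, K ⊆ tame φ (V j) := by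
  classical
  by_contra hcon
  push Not at hcon
  choose y hyK hy using fun j => not_subset.1 (hcon j)
  choose S hS using fun j => large_support (uc_eval hφ (y j))
  let D : Set X := ⋃ j, (S j : Set X) \ V j
  have hfin : ∀ x : X, {j | x ∉ V j}.Finite := fun x => by
    obtain ⟨j, hj⟩ := hc x
    exact (finite_lt_nat j).subset fun i hi => lt_of_not_ge fun k => hi (hm k hj)
  have hDc : D.Countable := countable_iUnion fun j => ((S j).finite_toSet.subset
    sdiff_subset).countable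
  have hD : ∀ x, ∃ W ∈ 𝓝 x, (W ∩ D).Finite := by
    refine hV D fun j => ?_
    refine ((finite_lt_nat j).biUnion fun i _ => (S i).finite_toSet).subset ?_
    rintro x ⟨hx, hx'⟩
    obtain ⟨i, hi, hi'⟩ := mem_iUnion.1 hx'
    exact mem_iUnion₂.2 ⟨i, lt_of_not_ge fun k => hi' (hm k hx), hi⟩
  obtain ⟨u, hu, hlf, hu1, hu0, huT⟩ := bumps hDc hD (fun d => ⋃ j ∈ {j | d ∉ V j}, (S j : Set X))
    fun d => (hfin d).biUnion fun j _ => (S j).finite_toSet
  have : Countable D := hDc.to_subtype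
  let T : (D → ℝ) → Cp X := fun a => ⟨fun x => ∑ᶠ d, a d * u d x,
    continuous_finsum (fun d => continuous_const.mul (hu d))
      (hlf.subset fun d x hx => right_ne_zero_of_mul hx)⟩
  have hTx : ∀ a x, (T a).1 x = ∑ d ∈ (hlf.point_finite x).toFinset, a d * u d x := fun a x =>
    finsum_eq_sum_of_support_subset _ fun d hd =>
      (hlf.point_finite x).mem_toFinset.2 (right_ne_zero_of_mul hd)
  have hTc : Continuous T := by
    refine Continuous.subtype_mk (continuous_pi fun x => ?_) _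
    refine Continuous.congr ?_ fun a => (hTx a x).symm
    exact continuous_finsetSum _ fun d _ => (continuous_apply d).mul continuous_const
  have hTd : ∀ a (d : D), (T a).1 d = a d := fun a d => by
    have := finsum_eq_single (fun d' : D => a d' * u d' d) d fun d' hd' => by
      rw [hu0 d' d hd', mul_zero]
    rw [hu1, mul_one] at this
    exact this
  obtain ⟨m, a0, ha0⟩ := nonempty_interior_of_iUnion_of_closed
    (f := fun m : ℕ => {a : D → ℝ | ∀ z ∈ K, |(φ (T a)).1 z| ≤ m}) (fun m => by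
      rw [ofPred_forall]
      refine isClosed_iInter fun z => ?_
      rw [ofPred_forall]
      exact isClosed_iInter fun _ => isClosed_le
        (((uc_eval hφ z).continuous.comp hTc).abs) continuous_const) (by
      refine eq_univ_of_forall fun a => ?_
      obtain ⟨b, hb⟩ := hK.bddAbove_image (φ (T a)).2.abs.continuousOn
      obtain ⟨m, hm⟩ := exists_nat_ge b
      exact mem_iUnion.2 ⟨m, fun z hz => (hb ⟨z, hz, rfl⟩).trans hm⟩)
  rw [mem_interior_iff_mem_nhds, nhds_pi, Filter.mem_pi] at ha0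
  obtain ⟨I, hI, t, ht, hIt⟩ := ha0
  obtain ⟨j, hj⟩ : ∃ j, ∀ d ∈ I, (d : X) ∈ V j := by
    obtain ⟨j, hj⟩ := (hI.biUnion fun d _ => hfin d).bddAbove
    refine ⟨j + 1, fun d hd => ?_⟩
    by_contra k
    have := hj (mem_iUnion₂.2 ⟨d, hd, k⟩)
    omega
  refine hy j fun r => ?_
  obtain ⟨b, hb⟩ := ((S j).finite_toSet.image fun x => |(T a0).1 x|).bddAbove
  obtain ⟨M, hM⟩ := hS j (max 0 (r + b))
  refine ⟨M + m, fun h hh => ?_⟩
  let a : D → ℝ := fun d => if (d : X) ∈ V j then a0 d else h.1 d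
  have h1 : |(φ (T a)).1 (y j)| ≤ m :=
    hIt (fun d hd => by simp only [a, if_pos (hj d hd)]; exact mem_of_mem_nhds (ht d)) _ (hyK j)
  have h2 : |(φ h).1 (y j) - (φ (T a)).1 (y j)| ≤ M := by
    refine hM h (T a) fun x hx => ?_
    by_cases k : x ∈ V j
    · have e : (T a).1 x = (T a0).1 x := by
        rw [hTx, hTx]
        refine Finset.sum_congr rfl fun d _ => ?_
        by_cases k' : (d : X) ∈ V j
        · simp only [a, if_pos k']
        · rw [huT d x (mem_iUnion₂.2 ⟨j, k', hx⟩) fun e => k' (e ▸ k), mul_zero, mul_zero]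
      have h3 := hb ⟨x, hx, rfl⟩
      have h4 := abs_sub (h.1 x) ((T a0).1 x)
      rw [e]
      exact le_max_of_le_right (by linarith [hh x k])
    · have e := hTd a ⟨x, mem_iUnion.2 ⟨j, hx, k⟩⟩
      simp only [a, if_neg k] at e
      rw [e, sub_self, abs_zero]
      exact le_max_left _ _
  have h3 := abs_add_le ((φ h).1 (y j) - (φ (T a)).1 (y j)) ((φ (T a)).1 (y j))
  rw [sub_add_cancel] at h3
  linarith

theorem net_target [CompletelyRegularSpace Y] {ι : Type w} {P : ι → Set (Cp X)} (hP : Net P)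
    {φ : Cp X → Cp Y} (hφ : UniformContinuous φ) (hs : Function.Surjective φ) :
    Net fun i => {y : Y | ∀ f ∈ P i, |(φ f).1 y| < 1} := by
  intro y U hU
  obtain ⟨g, hg, hg0, hg1⟩ := CompletelyRegularSpace.completely_regular y (interior U)ᶜ
    isOpen_interior.isClosed_compl fun k => k (mem_interior_iff_mem_nhds.2 hU)
  obtain ⟨f, hf⟩ := hs ⟨fun z => g z, continuous_subtype_val.comp hg⟩
  obtain ⟨i, hi, hi'⟩ := hP f {f | |(φ f).1 y| < 1}
    ((isOpen_lt (uc_eval hφ y).continuous.abs continuous_const).mem_nhds (by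
      simp [hf, hg0]))
  refine ⟨i, fun f hf => hi' hf, fun z hz => interior_subset ?_⟩
  by_contra k
  have h1 := hz f hi
  rw [hf] at h1
  simp [hg1 k] at h1

/-- A countable family that separates compact sets from points. -/
theorem separating [NormalSpace Y] [T1Space Y] {ι : Type w} {e : ι → Set Y} (h : Net e) :
    ∃ G : Finset (ι × ι) → Set Y, ∀ K, IsCompact K → ∀ z ∉ K, ∃ s, K ⊆ G s ∧ (G s)ᶜ ∈ 𝓝 z := by
  classical
  have h1 : ∀ p : ι × ι, ∃ O O' : Set Y, IsOpen O ∧ IsOpen O' ∧ Disjoint O O' ∧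
      (Disjoint (closure (e p.1)) (closure (e p.2)) → e p.1 ⊆ O ∧ e p.2 ⊆ O') := by
    intro p
    by_cases k : Disjoint (closure (e p.1)) (closure (e p.2))
    · obtain ⟨O, O', a, b, c, d, f⟩ := normal_separation isClosed_closure isClosed_closure k
      exact ⟨O, O', a, b, f, fun _ => ⟨subset_closure.trans c, subset_closure.trans d⟩⟩
    · exact ⟨∅, ∅, isOpen_empty, isOpen_empty, disjoint_empty _, fun k' => absurd k' k⟩
  choose O O' hO hO' hd hsub using h1
  refine ⟨fun s => ⋃ p ∈ s, O p, fun K hK z hz => ?_⟩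
  have h2 : ∀ y ∈ K, ∃ p, y ∈ O p ∧ z ∈ O' p := by
    intro y hy
    have hne : y ≠ z := fun k => hz (k ▸ hy)
    obtain ⟨A, B, hA, hB, hyA, hzB, hAB⟩ := t2_separation hne
    obtain ⟨A', hA', hcA, hsA⟩ := exists_mem_nhds_isClosed_subset (hA.mem_nhds hyA)
    obtain ⟨B', hB', hcB, hsB⟩ := exists_mem_nhds_isClosed_subset (hB.mem_nhds hzB)
    obtain ⟨i, hi, hi'⟩ := h y A' hA'
    obtain ⟨j, hj, hj'⟩ := h z B' hB'
    have := hsub (i, j) (hAB.mono ((closure_minimal hi' hcA).trans hsA)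
      ((closure_minimal hj' hcB).trans hsB))
    exact ⟨(i, j), this.1 hi, this.2 hj⟩
  have : Nonempty (ι × ι) := by
    obtain ⟨i, -⟩ := h z univ univ_mem
    exact ⟨(i, i)⟩
  choose! p hp hp' using h2
  obtain ⟨t, ht, hcov⟩ := hK.elim_nhds_subcover (fun y => O (p y))
    fun y hy => (hO _).mem_nhds (hp y hy)
  refine ⟨t.image p, fun y hy => ?_, ?_⟩
  · obtain ⟨x, hx, hx'⟩ := mem_iUnion₂.1 (hcov hy)
    exact mem_iUnion₂.2 ⟨p x, Finset.mem_image_of_mem p hx, hx'⟩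
  · have : (⋂ x ∈ t, O' (p x)) ∈ 𝓝 z :=
      (biInter_finset_mem t).2 fun x hx => (hO' _).mem_nhds (hp' x (ht x hx))
    filter_upwards [this] with y hy k
    obtain ⟨q, hq, hq'⟩ := mem_iUnion₂.1 k
    obtain ⟨x, hx, rfl⟩ := Finset.mem_image.1 hq
    exact disjoint_left.1 (hd _) hq' (mem_iInter₂.1 hy x hx)

/-- Finite intersections of a family that catches every escaping sequence. -/
theorem squeeze {Y : Type v} {ι : Type w} [Countable ι] (G : ι → Set Y) {K U : Set Y}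
    (h : ∀ z : ℕ → Y, (∀ i, z i ∉ U) → ∃ s, K ⊆ G s ∧ ∃ᶠ i in atTop, z i ∉ G s) :
    ∃ t : Finset ι, K ⊆ ⋂ s ∈ t, G s ∧ ⋂ s ∈ t, G s ⊆ U := by
  classical
  obtain ⟨c, hc⟩ := exists_injective_nat ι
  have hf : ∀ n : ℕ, {s | c s ≤ n ∧ K ⊆ G s}.Finite := fun n =>
    (((finite_le_nat n).preimage hc.injOn)).subset fun s hs => hs.1
  by_contra hcon
  push Not at hcon
  have h1 : ∀ n, ¬(⋂ s ∈ (hf n).toFinset, G s) ⊆ U := fun n =>
    hcon _ (subset_iInter₂ fun s hs => ((hf n).mem_toFinset.1 hs).2)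
  choose z hz hz' using fun n => not_subset.1 (h1 n)
  obtain ⟨s, hs, hs'⟩ := h z hz'
  obtain ⟨n, hn, hn'⟩ := frequently_atTop.1 hs' (c s)
  exact hn' (mem_iInter₂.1 (hz n) s ((hf n).mem_toFinset.2 ⟨hn, hs⟩))

theorem main [T35Space X] [T35Space Y] {e : ℕ → Set X} (he : Net e)
    (hp : ∀ x, ∀ U ∈ 𝓝 x, ∀ A : Set X, (∀ V ∈ 𝓝 x, (V ∩ A).Infinite) →
      ∃ i, e i ⊆ U ∧ (e i ∩ A).Infinite)
    {φ : Cp X → Cp Y} (hφ : UniformContinuous φ) (hs : Function.Surjective φ) :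
    ∃ N : Set (Set Y), N.Countable ∧ ∀ K U : Set Y, IsCompact K → IsOpen U → K ⊆ U →
      ∃ n ∈ N, K ⊆ n ∧ n ⊆ U := by
  classical
  have hY := net_target he.box hφ hs
  have := he.lindelof
  have := hY.lindelof
  have : NormalSpace X := NormalSpace.of_regularSpace_lindelofSpace
  have : NormalSpace Y := NormalSpace.of_regularSpace_lindelofSpace
  obtain ⟨G, hG⟩ := separating hY
  let V : Finset ℕ → Set X := fun s => ⋃ i ∈ s, e i
  let H : _ ⊕ Finset ℕ → Set Y := Sum.elim G fun s => tame φ (V s)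
  refine ⟨range fun t : Finset _ => ⋂ s ∈ t, H s, countable_range _, fun K U hK hU hKU => ?_⟩
  suffices h : ∃ t : Finset _, K ⊆ ⋂ s ∈ t, H s ∧ ⋂ s ∈ t, H s ⊆ U by
    obtain ⟨t, ht⟩ := h
    exact ⟨_, mem_range_self t, ht⟩
  refine squeeze H fun z hz => ?_
  by_cases hcl : ∃ y, ∀ W ∈ 𝓝 y, ∃ᶠ i in atTop, z i ∈ W
  · obtain ⟨y, hy⟩ := hcl
    have hyK : y ∉ K := fun k => by
      obtain ⟨i, hi⟩ := (hy U (hU.mem_nhds (hKU k))).exists
      exact hz i hi
    obtain ⟨s, hs1, hs2⟩ := hG K hK y hyK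
    exact ⟨Sum.inl s, hs1, hy _ hs2⟩
  push Not at hcl
  have hfin : ∀ y, ∃ W ∈ 𝓝 y, {i | z i ∈ W}.Finite := fun y => by
    obtain ⟨W, hW, h⟩ := hcl y
    obtain ⟨n, hn⟩ := eventually_atTop.1 h
    exact ⟨W, hW, (finite_lt_nat n).subset fun i hi => lt_of_not_ge fun k => hn i k hi⟩
  have hD : ∀ y, ∃ W ∈ 𝓝 y, (W ∩ range z).Finite := fun y => by
    obtain ⟨W, hW, h⟩ := hfin y
    exact ⟨W, hW, (h.image z).subset fun _ ⟨a, i, b⟩ => ⟨i, (b.symm ▸ a : z i ∈ W), b⟩⟩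
  have hM : ∀ (y : Y) (p : Finset ℕ × ℕ), ∃ M : ℝ, y ∈ tame φ (V p.1) →
      ∀ h : Cp X, (∀ x ∈ V p.1, |h.1 x| ≤ p.2) → |(φ h).1 y| ≤ M := fun y p => by
    by_cases k : y ∈ tame φ (V p.1)
    · obtain ⟨M, hM⟩ := k p.2
      exact ⟨M, fun _ => hM⟩
    · exact ⟨0, fun k' => absurd k' k⟩
  choose M hM using hM
  obtain ⟨c, hc⟩ := exists_surjective_nat (Finset ℕ × ℕ)
  have hidx : ∀ y : Y, ∃ n : ℕ, ∀ i, z i = y → i ≤ n := fun y => by
    obtain ⟨W, hW, h⟩ := hfin y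
    obtain ⟨n, hn⟩ := h.bddAbove
    exact ⟨n, fun i hi => hn (hi.symm ▸ mem_of_mem_nhds hW : z i ∈ W)⟩
  choose idx hidx using hidx
  obtain ⟨g, hg, hgz⟩ := extend_discrete hD fun y =>
    1 + ∑ l ∈ Finset.range (idx y + 1), |M y (c l)|
  obtain ⟨f, hf⟩ := hs ⟨g, hg⟩
  let s : ℕ → Finset ℕ := fun j =>
    (Finset.range (j + 1)).filter fun i => ∀ x ∈ e i, |f.1 x| ≤ j
  have hms : ∀ j i, i ∈ s j ↔ i ≤ j ∧ ∀ x ∈ e i, |f.1 x| ≤ j := fun j i => by
    simp only [s, Finset.mem_filter, Finset.mem_range, Nat.lt_succ_iff]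
  have hin : ∀ (x : X) i, e i ⊆ {y | |f.1 y| < |f.1 x| + 1} → ∃ j, e i ⊆ V (s j) := by
    intro x i hi
    obtain ⟨n, hn⟩ := exists_nat_ge (|f.1 x| + 1)
    refine ⟨max i n, fun y hy => mem_iUnion₂.2 ⟨i, (hms _ _).2 ⟨le_max_left _ _, fun w hw => ?_⟩,
      hy⟩⟩
    have h1 : |f.1 w| < |f.1 x| + 1 := hi hw
    have h2 : (n : ℝ) ≤ (max i n : ℕ) := Nat.cast_le.2 (le_max_right _ _)
    linarith
  have hnb : ∀ x : X, {y | |f.1 y| < |f.1 x| + 1} ∈ 𝓝 x := fun x =>
    (isOpen_lt f.2.abs continuous_const).mem_nhds (lt_add_one |f.1 x|)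
  obtain ⟨j, hj⟩ := exists_tame hφ (V := fun j => V (s j)) (fun a b hab x hx => by
      obtain ⟨i, hi, hx⟩ := mem_iUnion₂.1 hx
      have h1 := (hms _ _).1 hi
      exact mem_iUnion₂.2 ⟨i, (hms _ _).2 ⟨h1.1.trans hab, fun w hw =>
        (h1.2 w hw).trans (Nat.cast_le.2 hab)⟩, hx⟩) (fun x => by
      obtain ⟨i, hi, hi'⟩ := he x _ (hnb x)
      obtain ⟨j, hj⟩ := hin x i hi'
      exact ⟨j, hj hi⟩) (fun D hD x => by
      by_contra k
      push Not at k
      obtain ⟨i, hi, hi'⟩ := hp x _ (hnb x) D k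
      obtain ⟨j, hj⟩ := hin x i hi
      exact hi' ((hD j).subset (inter_subset_inter_left _ hj))) hK
  refine ⟨Sum.inr (s j), hj, ?_⟩
  obtain ⟨l, hl⟩ := hc (s j, j)
  refine (eventually_ge_atTop l).frequently.mono fun i hi k => ?_
  have h1 := hM (z i) (s j, j) k f fun x hx => by
    obtain ⟨a, ha, hx⟩ := mem_iUnion₂.1 hx
    exact ((hms _ _).1 ha).2 x hx
  rw [hf, ← hl] at h1
  have h2 := hgz (z i) (mem_range_self i)
  have h3 : |M (z i) (c l)| ≤ ∑ l ∈ Finset.range (idx (z i) + 1), |M (z i) (c l)| :=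
    Finset.single_le_sum (f := fun l => |M (z i) (c l)|) (fun _ _ => abs_nonneg _)
      (Finset.mem_range.2 (Nat.lt_succ_of_le (hi.trans (hidx _ i rfl))))
  have h4 := le_abs_self (M (z i) (c l))
  have h5 := le_abs_self (g (z i))
  change |g (z i)| ≤ _ at h1
  linarith

end Pool.Agent.MP_866953_gt.Pyt
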