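import Mathlib.Topology.Compactness.CompactlyCoherentSpace
import Mathlib.Topology.Separation.Regular

/-! A countable k-network of a regular k-space is a Pytkeev network (Banakh). Not used in the
hand-in; it records that the hand-in covers all k-spaces with a countable k-network. -/

namespace Pool.Agent.MP_866953_gt.Pyt

open Set Topology

theorem pytkeev_of_kspace {X : Type*} [TopologicalSpace X] [T3Space X] [CompactlyCoherentSpace X]
    {N : Set (Set X)} (hN : ∀ K U : Set X, IsCompact K → IsOpen U → K ⊆ U →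
      ∃ F : Finset (Set X), (↑F : Set (Set X)) ⊆ N ∧
        K ⊆ ⋃₀ (↑F : Set (Set X)) ∧ ⋃₀ (↑F : Set (Set X)) ⊆ U) (x : X) (U : Set X)
    (hU : U ∈ 𝓝 x) : (∃ n ∈ N, x ∈ n ∧ n ⊆ U) ∧
      ∀ A : Set X, (∀ V ∈ 𝓝 x, (V ∩ A).Infinite) → ∃ n ∈ N, n ⊆ U ∧ (n ∩ A).Infinite := by
  constructor
  · obtain ⟨F, hF, h1, h2⟩ := hN {x} (interior U) isCompact_singleton isOpen_interior
      (singleton_subset_iff.2 (mem_interior_iff_mem_nhds.2 hU))
    obtain ⟨n, hn, hx⟩ := h1 rfl
    exact ⟨n, hF hn, hx, ((subset_sUnion_of_mem hn).trans h2).trans interior_subset⟩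
  · intro A hA
    by_contra hc
    push Not at hc
    obtain ⟨W, hW, hWc, hWU⟩ := exists_mem_nhds_isClosed_subset (interior_mem_nhds.2 hU)
    have hcl : IsClosed ((W ∩ A) \ {x}) := by
      refine (CompactlyCoherentSpace.isClosed_iff _).2 fun K hK => ?_
      obtain ⟨F, hF, h1, h2⟩ := hN (K ∩ W) (interior U) (hK.inter_right hWc) isOpen_interior
        (inter_subset_right.trans hWU)
      have hf : (K ∩ ((W ∩ A) \ {x})).Finite := by
        refine (F.finite_toSet.biUnion fun n hn => hc n (hF hn)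
          (((subset_sUnion_of_mem hn).trans h2).trans interior_subset)).subset ?_
        rintro y ⟨hy, ⟨hy1, hy2⟩, -⟩
        obtain ⟨n, hn, hyn⟩ := h1 ⟨hy, hy1⟩
        exact mem_iUnion₂.2 ⟨n, hn, hyn, hy2⟩
      have := hf.isClosed.preimage (continuous_subtype_val (p := fun y => y ∈ K))
      convert this using 1
      ext y
      simp
    refine hA (W ∩ ((W ∩ A) \ {x})ᶜ)
      (Filter.inter_mem hW (hcl.isOpen_compl.mem_nhds fun k => k.2 rfl))
      ((finite_singleton x).subset ?_)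
    rintro y ⟨⟨h1, h2⟩, h3⟩
    by_contra k
    exact h2 ⟨⟨h1, h3⟩, k⟩

end Pool.Agent.MP_866953_gt.Pyt
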